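import Pool.Agent.Lib.MP_3f8c0b_an.Mdim

/-!
# The embedding conjecture for `ℤ ^ k`-actions fails for all `k` and `D`

For all `k ≥ 1` and `D` there is a compact metric space `X` with a continuous action of `ℤ ^ k` such
that for every subgroup `A` of `ℤ ^ k` the system `(X_A, ℤ ^ k / A)` has mean dimension `0`, and
which does not embed into the `D`-cubical shift.  Every continuous map of `X` into `ℝ ^ D` is even
constant on some orbit.
-/

set_option autoImplicit false

namespace Pool.Agent.Results.MP_3f8c0b_an.EmbeddingFails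

open Pool.Agent.Lib.MP_3f8c0b_an

/-- For all `k ≥ 1` and `D` there is a system `(X, ℤ ^ k)` with
`mdim(X_A, ℤ ^ k / A) = 0` for every subgroup `A` of `ℤ ^ k` that does not embed into the
`D`-cubical shift; every continuous map from `X` to `ℝ ^ D` is constant on some orbit. -/
theorem result (k D : ℕ) (hk : 1 ≤ k) :
    ∃ (X : Type) (_ : MetricSpace X) (_ : CompactSpace X) (_ : AddAction (Fin k → ℤ) X),
      (∀ n : Fin k → ℤ, Continuous fun x : X => n +ᵥ x) ∧
      (∀ (A : AddSubgroup (Fin k → ℤ)) (F : ℕ → Finset ((Fin k → ℤ) ⧸ A)),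
        IsFolner F → mdim X A F = 0) ∧
      (¬ ∃ f : X → (Fin k → ℤ) → Fin D → unitInterval, Continuous f ∧ Function.Injective f ∧
        ∀ (n : Fin k → ℤ) (x : X) (m : Fin k → ℤ), f (n +ᵥ x) m = f x (m + n)) ∧
      ∀ φ : X → Fin D → ℝ, Continuous φ → ∃ x : X, ∀ n : Fin k → ℤ, φ (n +ᵥ x) = φ x := by
  classical
  let i0 : Fin k := ⟨0, hk⟩
  have hM : 0 < D + 2 := by omega
  let X : Type := {x : Om (D + 2) // x ∈ XX (D + 2)}
  have hcomp : CompactSpace X := isCompact_iff_compactSpace.1 isCompact_XX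
  let act : AddAction (Fin k → ℤ) X :=
    { vadd := fun n x => ⟨sh (n i0) x.1, sh_mem_XX x.2 _⟩
      zero_vadd := fun x => Subtype.ext (sh_zero x.1)
      add_vadd := fun n n' x => Subtype.ext (sh_sh (n i0) (n' i0) x.1).symm }
  have hvadd : ∀ (n : Fin k → ℤ) (x : X), (n +ᵥ x).1 = sh (n i0) x.1 := fun _ _ => rfl
  have hφ : ∀ φ : X → Fin D → ℝ, Continuous φ →
      ∃ x : X, ∀ n : Fin k → ℤ, φ (n +ᵥ x) = φ x := by
    intro φ hφ
    obtain ⟨x, hx⟩ := exists_const_orbit rfl φ hφ
    exact ⟨x, fun n => hx (n i0)⟩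
  have hcont : ∀ n : Fin k → ℤ, Continuous fun x : X => n +ᵥ x := fun n =>
    Continuous.subtype_mk ((sh_cont (n i0)).comp continuous_subtype_val) _
  refine ⟨X, TopologicalSpace.metrizableSpaceMetric X, hcomp, act, hcont, ?_, ?_, hφ⟩
  · intro A F hF
    let met : MetricSpace X := TopologicalSpace.metrizableSpaceMetric X
    exact mdim_zero hM (fun x : X => x.1) continuous_subtype_val Subtype.val_injective
      (fun x => x.2) i0 (fun n x => rfl) A F hF
  · rintro ⟨f, hf, hinj, heq⟩
    have h1 : Continuous fun (x : X) (d : Fin D) => ((f x 0 d : unitInterval) : ℝ) := by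
      refine continuous_pi fun d => continuous_subtype_val.comp ?_
      exact (continuous_apply d).comp ((continuous_apply (0 : Fin k → ℤ)).comp hf)
    obtain ⟨x, hx⟩ := hφ _ h1
    have h2 : ∀ n : Fin k → ℤ, f x n = f x 0 := by
      intro n
      have h3 := heq n x 0
      rw [zero_add] at h3
      rw [← h3]
      funext d
      exact Subtype.ext (congrFun (hx n) d)
    have h4 : f ((Pi.single i0 1 : Fin k → ℤ) +ᵥ x) = f x := by
      funext m
      rw [heq, h2, h2 m]
    have h5 := congrArg Subtype.val (hinj h4)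
    rw [hvadd, Pi.single_eq_same] at h5
    exact sh_ne hM x.2 one_ne_zero h5

end Pool.Agent.Results.MP_3f8c0b_an.EmbeddingFails
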